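import Pool.Agent.helper43.DHB.SpecB

/-!
# Project d2: (MP_5823cb_al), row bLAY: layer cake (helper19)
-/

set_option autoImplicit false

open Filter Topology MeasureTheory
open scoped commutatorElement

namespace Pool.Agent.helper90.DH

open Pool.Agent.helper64.D2

theorem bLAY_cnt (n k : ℕ) (h : n ≤ k) : ((Finset.Icc 1 k).filter (fun t => t ≤ n)).card = n := by
  have h1 : (Finset.Icc 1 k).filter (fun t => t ≤ n) = Finset.Icc 1 n := by
    ext t
    simp only [Finset.mem_filter, Finset.mem_Icc]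
    omega
  rw [h1, Nat.card_Icc]
  omega

theorem bLAY_bszle (k : ℕ) (cl : ℕ → ℕ) (c : ℕ) : bsz k cl c ≤ k := by
  unfold bsz
  calc ((Finset.range k).filter (fun a => cl a = c)).card ≤ (Finset.range k).card := Finset.card_filter_le _ _
    _ = k := Finset.card_range k

theorem bLAY_blv (k : ℕ) (cl : ℕ → ℕ) : ∑ t ∈ Finset.Icc 1 k, (blv k cl t).card = k := by
  have h1 : ∀ t ∈ Finset.Icc 1 k, (blv k cl t).card = ∑ c ∈ (Finset.range k).image cl, if t ≤ bsz k cl c then 1 else 0 := by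
    intro t _
    unfold blv
    rw [Finset.card_filter]
  rw [Finset.sum_congr rfl h1, Finset.sum_comm]
  have h2 : ∀ c ∈ (Finset.range k).image cl, (∑ t ∈ Finset.Icc 1 k, if t ≤ bsz k cl c then 1 else 0) = bsz k cl c := by
    intro c _
    rw [← Finset.card_filter, bLAY_cnt _ _ (bLAY_bszle k cl c)]
  rw [Finset.sum_congr rfl h2]
  have h3 := Finset.card_eq_sum_card_image cl (Finset.range k)
  rw [Finset.card_range] at h3
  unfold bsz
  exact h3.symm

theorem bLAY_fib (k : ℕ) (cl : ℕ → ℕ) (E : Finset (ℕ × ℕ × ℕ)) (hE : ∀ e ∈ E, e.2.1 < k ∧ e.2.2 < k)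
    (hP : PIn E) (x : ℕ × ℕ × ℕ) :
    (E.filter (fun e => (e.1, cl e.2.1, cl e.2.2) = x)).card ≤ min (bsz k cl x.2.1) (bsz k cl x.2.2) := by
  apply le_min
  · unfold bsz
    apply Finset.card_le_card_of_injOn (fun e => e.2.1)
    · intro e he
      rw [Finset.mem_coe, Finset.mem_filter] at he
      rw [Finset.mem_coe, Finset.mem_filter, Finset.mem_range]
      exact ⟨(hE e he.1).1, by rw [← he.2]⟩
    · intro e he e' he' hee
      rw [Finset.mem_coe, Finset.mem_filter] at he he'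
      have h1 : e.1 = e'.1 := by
        have h2 := congrArg Prod.fst he.2
        have h3 := congrArg Prod.fst he'.2
        exact h2.trans h3.symm
      exact hP e he.1 e' he'.1 h1 (Or.inl hee)
  · unfold bsz
    apply Finset.card_le_card_of_injOn (fun e => e.2.2)
    · intro e he
      rw [Finset.mem_coe, Finset.mem_filter] at he
      rw [Finset.mem_coe, Finset.mem_filter, Finset.mem_range]
      exact ⟨(hE e he.1).2, by rw [← he.2]⟩
    · intro e he e' he' hee
      rw [Finset.mem_coe, Finset.mem_filter] at he he'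
      have h1 : e.1 = e'.1 := by
        have h2 := congrArg Prod.fst he.2
        have h3 := congrArg Prod.fst he'.2
        exact h2.trans h3.symm
      exact hP e he.1 e' he'.1 h1 (Or.inr hee)

theorem bLAY_bed (k : ℕ) (cl : ℕ → ℕ) (E : Finset (ℕ × ℕ × ℕ)) (hE : ∀ e ∈ E, e.2.1 < k ∧ e.2.2 < k)
    (hP : PIn E) : E.card ≤ ∑ t ∈ Finset.Icc 1 k, (bed k cl E t).card := by
  have h1 : ∀ t ∈ Finset.Icc 1 k, (bed k cl E t).card =
      ∑ x ∈ E.image (fun e => (e.1, cl e.2.1, cl e.2.2)), if t ≤ bsz k cl x.2.1 ∧ t ≤ bsz k cl x.2.2 then 1 else 0 := by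
    intro t _
    unfold bed
    rw [Finset.card_filter]
  rw [Finset.sum_congr rfl h1, Finset.sum_comm,
    Finset.card_eq_sum_card_image (fun e : ℕ × ℕ × ℕ => (e.1, cl e.2.1, cl e.2.2)) E]
  apply Finset.sum_le_sum
  intro x _
  refine (bLAY_fib k cl E hE hP x).trans ?_
  rw [← Finset.card_filter]
  have h2 : (Finset.Icc 1 k).filter (fun t => t ≤ bsz k cl x.2.1 ∧ t ≤ bsz k cl x.2.2)
      = (Finset.Icc 1 k).filter (fun t => t ≤ min (bsz k cl x.2.1) (bsz k cl x.2.2)) := by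
    apply Finset.filter_congr
    intro t _
    rw [le_min_iff]
  rw [h2, bLAY_cnt _ _ ((min_le_left _ _).trans (bLAY_bszle k cl _))]

theorem bLAY : bLAY_stmt := by
  intro k cl E ρ hρ hE hP hcl hlt
  have hPb : ∀ t, PIn (bed k cl E t) := by
    intro t x hx x' hx' h1 h2
    unfold bed at hx hx'
    rw [Finset.mem_filter, Finset.mem_image] at hx hx'
    obtain ⟨⟨e, he, rfl⟩, -⟩ := hx
    obtain ⟨⟨e', he', rfl⟩, -⟩ := hx'
    have h1' : e.1 = e'.1 := h1
    have h3 := hcl e he e' he' h1'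
    have h4 : cl e.2.1 = cl e'.2.1 ∧ cl e.2.2 = cl e'.2.2 := by
      rcases h2 with h | h
      · exact ⟨h, h3.1 h⟩
      · exact ⟨h3.2 h, h⟩
    show (e.1, cl e.2.1, cl e.2.2) = (e'.1, cl e'.2.1, cl e'.2.2)
    rw [h1', h4.1, h4.2]
  by_contra hcon
  have hle : ∀ t ∈ Finset.Icc 1 k, ((bed k cl E t).card : ℝ) ≤ ρ * (blv k cl t).card := by
    intro t ht
    by_contra h
    exact hcon ⟨t, (Finset.mem_Icc.1 ht).1, not_le.1 h, hPb t⟩
  have h5 : (E.card : ℝ) ≤ ∑ t ∈ Finset.Icc 1 k, ((bed k cl E t).card : ℝ) := by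
    exact_mod_cast bLAY_bed k cl E hE hP
  have h6 : ∑ t ∈ Finset.Icc 1 k, ((bed k cl E t).card : ℝ) ≤ ρ * k := by
    calc ∑ t ∈ Finset.Icc 1 k, ((bed k cl E t).card : ℝ)
        ≤ ∑ t ∈ Finset.Icc 1 k, ρ * ((blv k cl t).card : ℝ) := Finset.sum_le_sum hle
      _ = ρ * ∑ t ∈ Finset.Icc 1 k, ((blv k cl t).card : ℝ) := by rw [Finset.mul_sum]
      _ = ρ * k := by
        have h7 : (∑ t ∈ Finset.Icc 1 k, ((blv k cl t).card : ℝ)) = (k : ℝ) := by
          exact_mod_cast bLAY_blv k cl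
        rw [h7]
  linarith

end Pool.Agent.helper90.DH
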